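import Pool.Agent.Q211.CW.Det

/-!
# Functions with a finite dimensional orbit span which converge along random walks are constant
-/

set_option autoImplicit false

open MeasureTheory Filter Topology ProbabilityTheory

namespace Pool.Agent.Results.MP_7af27d_pr.FiniteOrbitSpanConstant

/-- The random walk: `walk u t = u 0 * u 1 * ... * u (t - 1)`. -/
def walk {G : Type*} [Group G] (u : ℕ → G) (t : ℕ) : G := ((List.range t).map u).prod

/-- Let `G` be a topological group and `μ` a Borel probability measure on `G` which is adapted
(no proper closed subgroup has full measure) and symmetric.  Let `U 0, U 1, ...` be independent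
random elements with law `μ`.  If `f` is continuous, `f (x X_t)` converges almost surely for
every `x`, and the span of the left translates of `f` is finite dimensional, then `f` is
constant.  Neither amenability nor any moment or growth condition is needed. -/
theorem result {G : Type*} [Group G] [TopologicalSpace G] [IsTopologicalGroup G]
    [MeasurableSpace G] [BorelSpace G] (μ : Measure G) [IsProbabilityMeasure μ]
    (hadapted : ∀ H : Subgroup G, IsClosed (H : Set G) → H ≠ ⊤ → μ H ≠ 1)
    (hsymm : ∀ A : Set G, MeasurableSet A → μ A⁻¹ = μ A)
    {Ω : Type*} [MeasurableSpace Ω] (P : Measure Ω) [IsProbabilityMeasure P]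
    (U : ℕ → Ω → G) (hU : ∀ t, Measurable (U t)) (hlaw : ∀ t, P.map (U t) = μ)
    (hind : iIndepFun U P) (f : G → ℝ) (hf : Continuous f)
    (hconv : ∀ x : G, ∀ᵐ ω ∂P, ∃ l : ℝ,
      Tendsto (fun t => f (x * walk (fun i => U i ω) t)) atTop (𝓝 l))
    (hfin : FiniteDimensional ℝ
      (Submodule.span ℝ (Set.range fun γ : G => fun x : G => f (γ⁻¹ * x)))) :
    ∀ x y, f x = f y := by
  refine Pool.Agent.Q211.CW.const_of_converges (μ := μ) ?_ hsymm hU hlaw hind hf hconv hfin
  intro H hH h1
  by_contra hne
  exact hadapted H hH hne h1

end Pool.Agent.Results.MP_7af27d_pr.FiniteOrbitSpanConstant
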